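import Pool.Agent.helper32.EXC.Spec11

set_option autoImplicit false

open Finset

namespace Pool.Agent.EXC

theorem T11CV8_step (hT11XRL : T11XRL_stmt) [IsC CartanMatrix.E₈] (F : Type) [Field F] (k : Fin 15) (t : ℤ)
    (L : List ((Fin 8 → ℤ) × ℤ)) (hL : okl (lt8 k) L) :
    xe CartanMatrix.E₈ (E CartanMatrix.E₈ (lt8 k)) (t : F) (ls CartanMatrix.E₈ L) =
      (ls CartanMatrix.E₈ (xr CartanMatrix.E₈ (lt8 k) t L) : Lm CartanMatrix.E₈ F) ∧
    ∀ p ∈ xr CartanMatrix.E₈ (lt8 k) t L, ip CartanMatrix.E₈ p.1 p.1 = 2 :=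
  hT11XRL 8 CartanMatrix.E₈ F (lt8 k) t L (lt8_root k) hL

set_option maxHeartbeats 400000 in
/-- a word applied to a root vector, as a list -/
theorem T11CV8_word (hT11XRL : T11XRL_stmt) (hT11XGS : T11XGS_stmt) [IsC CartanMatrix.E₈] (F : Type) [Field F]
    (hEx : ∀ α, ip CartanMatrix.E₈ α α = 2 → ∃ β, ip CartanMatrix.E₈ β β = 2 ∧ ip CartanMatrix.E₈ α β = -1)
    (b : Fin 8 → ℤ) (hb : ip CartanMatrix.E₈ b b = 2) (l : List (Fin 15 × ℤ))
    (hok : ∀ j : ℕ, ∀ p ∈ (l.drop j).head?, okl (lt8 p.1)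
      ((l.drop (j + 1)).foldr (fun p l => xr CartanMatrix.E₈ (lt8 p.1) p.2 l) [(b, 1)])) :
    gw8 F l (E CartanMatrix.E₈ b) =
      (ls CartanMatrix.E₈ (l.foldr (fun p l => xr CartanMatrix.E₈ (lt8 p.1) p.2 l) [(b, 1)]) : Lm CartanMatrix.E₈ F) ∧
    ∀ p ∈ l.foldr (fun p l => xr CartanMatrix.E₈ (lt8 p.1) p.2 l) [(b, 1)], ip CartanMatrix.E₈ p.1 p.1 = 2 := by
  induction l with
  | nil =>
    refine ⟨?_, ?_⟩
    · simp [gw8, ls]
    · intro p hp
      simp only [List.foldr_nil, List.mem_singleton] at hp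
      rw [hp]
      exact hb
  | cons a l ih =>
    have ih1 := ih (fun j p hp => by
      have h := hok (j + 1) p (by rw [List.drop_succ_cons]; exact hp)
      rw [List.drop_succ_cons] at h
      exact h)
    have h0 := hok 0 a (by rw [List.drop_zero, List.head?_cons]; rfl)
    rw [zero_add, List.drop_succ_cons, List.drop_zero] at h0
    have hX := T11CV8_step hT11XRL F a.1 a.2 _ h0
    have hG := (hT11XGS 8 CartanMatrix.E₈ F hEx (lt8 a.1) (lt8_root a.1) (a.2 : F)).1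
    refine ⟨?_, ?_⟩
    · have e1 : gw8 F (a :: l) (E CartanMatrix.E₈ b) =
          XG CartanMatrix.E₈ (lt8 a.1) (a.2 : F) (gw8 F l (E CartanMatrix.E₈ b)) := by
        simp [gw8, List.map_cons, List.prod_cons]
      rw [e1, ih1.1, hG, hX.1, List.foldr_cons]
    · rw [List.foldr_cons]
      exact hX.2

theorem T11CV8_len : ∀ i : Fin 5, (wd8 i).length ≤ 3 := by decide

set_option maxHeartbeats 400000 in
theorem T11CV8_list (hT11XRL : T11XRL_stmt) (hT11XGS : T11XGS_stmt) [IsC CartanMatrix.E₈] (F : Type) [Field F]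
    (hEx : ∀ α, ip CartanMatrix.E₈ α α = 2 → ∃ β, ip CartanMatrix.E₈ β β = 2 ∧ ip CartanMatrix.E₈ α β = -1)
    (i : Fin 5) :
    c8 F i = (sb8 i : F) • ls CartanMatrix.E₈ (cl8 i) ∧ ∀ p ∈ cl8 i, ip CartanMatrix.E₈ p.1 p.1 = 2 := by
  have h := T11CV8_word hT11XRL hT11XGS F hEx (lt8 (bs8 i)) (lt8_root _) (wd8 i) (by
    intro j p hp
    by_cases hj : j < 3
    · exact cl8_ok i ⟨j, hj⟩ p hp
    · have h3 := T11CV8_len i
      rw [List.drop_eq_nil_of_le (by omega)] at hp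
      simp at hp)
  exact ⟨by unfold c8; rw [h.1]; rfl, h.2⟩

set_option maxHeartbeats 400000 in
/-- CV8 -/
theorem T11CV8 (hT11XRL : T11XRL_stmt) (hT11FML : T11FML_stmt) (hT11XGS : T11XGS_stmt) : T11CV8_stmt := by
  intro _ F _ hEx
  have hc := T11CV8_list hT11XRL hT11XGS F hEx
  have hf := fml8
  obtain ⟨h2, h3, h4, h0⟩ := cfl8
  refine ⟨?_, ?_, ?_⟩
  · rw [(hc 0).1, (hc 1).1, fm_smul_left, fm_smul_right,
      (hT11FML 8 CartanMatrix.E₈ F _ _ (hc 0).2 (hc 1).2).1, ← mul_assoc]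
    have := congrArg (Int.cast : ℤ → F) hf
    push_cast at this
    exact this
  · intro κ hκ
    have h : cf (c8 F 2) ![0, -1, -1, -2, -2, -2, -1, 0] = cf (κ • c8 F 3) ![0, -1, -1, -2, -2, -2, -1, 0] := by
      rw [← hκ]
    rw [(hc 2).1, (hc 3).1, cf_smul, cf_smul, cf_smul,
      (hT11FML 8 CartanMatrix.E₈ F _ _ (hc 2).2 (hc 2).2).2, (hT11FML 8 CartanMatrix.E₈ F _ _ (hc 3).2 (hc 3).2).2,
      h2, h3] at h
    have hs : sb8 2 = 1 := rfl
    rw [hs] at h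
    simp at h
  · intro κ hκ
    have h : cf (c8 F 4) ![0, 0, 0, 0, 0, 1, 0, 0] = cf (κ • c8 F 0) ![0, 0, 0, 0, 0, 1, 0, 0] := by
      rw [← hκ]
    rw [(hc 4).1, (hc 0).1, cf_smul, cf_smul, cf_smul,
      (hT11FML 8 CartanMatrix.E₈ F _ _ (hc 4).2 (hc 4).2).2, (hT11FML 8 CartanMatrix.E₈ F _ _ (hc 0).2 (hc 0).2).2,
      h4, h0] at h
    have hs : sb8 4 = -1 := rfl
    rw [hs] at h
    simp at h

end Pool.Agent.EXC
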